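import Pool.Agent.TH894.NE4

/-!
# Primes with a fixed Frobenius trace, for almost all elliptic curves whose two coefficients arise from arbitrary integers
by changing a few digits: all traces at once, with the square root of the main term as error

Nothing is used besides Mathlib in the statement.
-/

set_option autoImplicit false

namespace Pool.Agent.Results.MP_d74fca_nt.FixedTraceFewDigitCurves

open Finset

/-- The number of the solutions of `Y ^ 2 = X ^ 3 + m 0 X + m 1` modulo `p`. -/
def points (p : ℕ) (m : Fin 2 → ℕ) : ℕ :=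
  ((range p ×ˢ range p).filter (fun xy => xy.2 ^ 2 % p = (xy.1 ^ 3 + m 0 * xy.1 + m 1) % p)).card

/-- The curve `Y ^ 2 = X ^ 3 + m 0 X + m 1` remains smooth modulo `p` and the trace of Frobenius
`p + 1 - #E(F_p) = p - points p m` is `t`. -/
def HasTrace (p : ℕ) (m : Fin 2 → ℕ) (t : ℤ) : Prop :=
  ¬ p ∣ 2 * (4 * m 0 ^ 3 + 27 * m 1 ^ 2) ∧ (p : ℤ) - points p m = t

open Classical in
/-- The number of the primes `p ≤ x` of good reduction of the curve (model) with the coefficients `m` with the trace `t`. -/
noncomputable def traceCount (m : Fin 2 → ℕ) (t : ℤ) (x : ℕ) : ℕ :=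
  ((range (x + 1)).filter (fun p => p.Prime ∧ HasTrace p m t)).card

open Classical in
/-- The sum over the primes `p ≤ x` of the proportion of the curves with the trace `t` among all pairs of coefficients
modulo `p`. -/
noncomputable def expected (t : ℤ) (x : ℕ) : ℝ :=
  ∑ p ∈ (range (x + 1)).filter Nat.Prime,
    (((Fintype.piFinset (fun _ : Fin 2 => range p)).filter (fun n => HasTrace p n t)).card : ℝ) / (p : ℝ) ^ 2

/-- For all integers `t` the number of the primes up to `x` with the trace `t` differs from the expected number `V` by at most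
`(max 1 V) ^ (1 / 2) x ^ δ`. -/
noncomputable def Good (δ : ℝ) (x : ℕ) (m : Fin 2 → ℕ) : Prop :=
  ∀ t : ℤ, |(traceCount m t x : ℝ) - expected t x| ≤ Real.sqrt (max 1 (expected t x)) * (x : ℝ) ^ δ

/-- The digit number `i` (counted from the right, beginning with `0`) of `n` in base `b`. -/
def digit (b i n : ℕ) : ℕ := n / b ^ i % b

/-- The number which arises from the number `N` with at most `K` digits in base `b`, if for every `i ∈ S`
the digit number `i` is replaced by `f i`. -/
def change (b K N : ℕ) (f : ℕ → ℕ) (S : Finset ℕ) : ℕ :=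
  ∑ i ∈ range K, (if i ∈ S then f i else digit b i N) * b ^ i

open Classical in
/-- The number of the choices of `r l` of `K l` positions for `l = 0, 1` for which the pair of the numbers obtained by
changing the digits of `N 0`, `N 1` at the chosen positions (according to `f 0`, `f 1`) does not have the property `E`. -/
noncomputable def exceptions (b : ℕ) (K r N : Fin 2 → ℕ) (f : Fin 2 → ℕ → ℕ) (E : (Fin 2 → ℕ) → Prop) : ℕ :=
  ((Fintype.piFinset (fun l => powersetCard (r l) (range (K l)))).filter
    (fun S => ¬ E (fun l => change b (K l) (N l) (f l) (S l)))).card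

lemma points_mod (p : ℕ) (m : Fin 2 → ℕ) : points p (fun i => m i % p) = points p m := by
  unfold points
  congr 1
  apply filter_congr
  intro xy _
  have h : xy.1 ^ 3 + m 0 % p * xy.1 + m 1 % p ≡ xy.1 ^ 3 + m 0 * xy.1 + m 1 [MOD p] :=
    (((Nat.mod_modEq (m 0) p).mul_right xy.1).add_left (xy.1 ^ 3)).add (Nat.mod_modEq (m 1) p)
  rw [h]

lemma hasTrace_mod (p : ℕ) (m : Fin 2 → ℕ) (t : ℤ) : HasTrace p m t ↔ HasTrace p (fun i => m i % p) t := by
  unfold HasTrace
  rw [points_mod]
  have h : 2 * (4 * (m 0 % p) ^ 3 + 27 * (m 1 % p) ^ 2) ≡ 2 * (4 * m 0 ^ 3 + 27 * m 1 ^ 2) [MOD p] :=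
    ((((Nat.mod_modEq (m 0) p).pow 3).mul_left 4).add (((Nat.mod_modEq (m 1) p).pow 2).mul_left 27)).mul_left 2
  rw [h.dvd_iff dvd_rfl]

/-- Let a base `b ≥ 2`, `δ > 0` and an integer `A ≥ 0` be given. There are `c > 0` and `y₀` such that for all integers
`r 0`, `r 1`, `K 0`, `K 1`, `y` with `2 r l ≤ K l` and `y ≥ y₀` the following holds.

Let `0 ≤ N l < b ^ K l` be arbitrary integers and prescribe for every position `j` a digit `f l j` different from the digit of
`N l` in base `b` (`l = 0, 1`). If one chooses `r l` of the `K l` positions and replaces the digits of `N l` at these positions, then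
for all but at most a proportion `1 / y ^ A` of the choices the elliptic curve `Y ^ 2 = X ^ 3 + m 0 X + m 1` with the numbers
`m 0`, `m 1` obtained has the following property: for all integers `x` with `y ≤ x ≤ exp (c r l)` (`l = 0, 1`) and all integers
`t` the number of the primes `p ≤ x` with the trace of Frobenius `t` differs from its expected value `V` (the sum over the primes
`p ≤ x` of the proportion of the pairs of coefficients modulo `p` with the trace `t`) by at most `(max 1 V) ^ (1 / 2) x ^ δ`. -/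
theorem result (b : ℕ) (hb : 2 ≤ b) (δ : ℝ) (hδ : 0 < δ) (A : ℕ) : ∃ c : ℝ, 0 < c ∧ ∃ y₀ : ℕ,
    ∀ (K r : Fin 2 → ℕ) (y : ℕ), (∀ l, 2 * r l ≤ K l) → y₀ ≤ y →
    ∀ N : Fin 2 → ℕ, (∀ l, N l < b ^ K l) → ∀ f : Fin 2 → ℕ → ℕ, (∀ l j, f l j < b ∧ f l j ≠ digit b j (N l)) →
      (exceptions b K r N f (fun m => ∀ x : ℕ, y ≤ x → (∀ l, (x : ℝ) ≤ Real.exp (c * r l)) → Good δ x m) : ℝ) ≤
        1 / (y : ℝ) ^ A * ∏ l, ((K l).choose (r l) : ℝ) := by
  classical
  obtain ⟨c, hc, x₀, h⟩ := Pool.Agent.TH894.NE.law2 b 2 hb (by norm_num) δ A 4 hδ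
  refine ⟨c, hc, x₀ + 3, fun K r y hrK hy N hN f hf => ?_⟩
  have hy0 : (0 : ℝ) < y := by exact_mod_cast (by omega : 0 < y)
  have h1 : 1 / (y : ℝ) ^ A = (y : ℝ) ^ (-(A : ℝ)) := by
    rw [Real.rpow_neg hy0.le, Real.rpow_natCast, one_div]
  rw [h1]
  unfold exceptions
  refine h r K y hrK (by omega) N hN f hf ℤ (fun x => if x < 2 then ∅ else Icc (-((x : ℤ) ^ 2)) ((x : ℤ) ^ 2)) ?_ ℕ
    (fun x _ => (range (x + 1)).filter Nat.Prime) (fun _ p => p) ?_ ?_ (fun t p m => HasTrace p m t) ?_ _ (filter_subset _ _) ?_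
  · intro x _
    show (((if x < 2 then ∅ else Icc (-((x : ℤ) ^ 2)) ((x : ℤ) ^ 2)) : Finset ℤ).card : ℝ) ≤ _
    split_ifs with hx
    · rw [card_empty, Nat.cast_zero]
      positivity
    · push Not at hx
      have hxr : (2 : ℝ) ≤ x := by exact_mod_cast hx
      rw [Int.card_Icc]
      have e1 : ((((x : ℤ) ^ 2 + 1 - -((x : ℤ) ^ 2)).toNat : ℕ) : ℝ) = 2 * (x : ℝ) ^ 2 + 1 := by
        have e2 : (((((x : ℤ) ^ 2 + 1 - -((x : ℤ) ^ 2)).toNat : ℕ) : ℤ) : ℝ) = (((x : ℤ) ^ 2 + 1 - -((x : ℤ) ^ 2) : ℤ) : ℝ) := by
          rw [Int.toNat_of_nonneg (by have : (0 : ℤ) ≤ (x : ℤ) ^ 2 := by positivity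
                                      linarith)]
        push_cast at e2
        push_cast
        rw [e2]
        ring
      rw [e1, show (4 : ℝ) = ((4 : ℕ) : ℝ) by norm_num, Real.rpow_natCast]
      have e3 : (4 : ℝ) ≤ (x : ℝ) ^ 2 := by nlinarith
      nlinarith
  · intro x l _ p hp
    rw [mem_filter, mem_range] at hp
    exact ⟨hp.2.one_lt.le, by omega⟩
  · intro x l _ p hp p' hp' hne
    rw [mem_filter] at hp hp'
    exact (Nat.coprime_primes hp.2 hp'.2).2 hne
  · intro x t _ p _ m
    exact hasTrace_mod p m t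
  · intro S hS
    rw [mem_filter] at hS
    obtain ⟨_, hS2⟩ := hS
    unfold Good at hS2
    push Not at hS2
    obtain ⟨x, hyx, hxr, t, hlt⟩ := hS2
    have hx0 : (0 : ℝ) < x := by exact_mod_cast (by omega : 0 < x)
    obtain ⟨m, hm⟩ : ∃ m : Fin 2 → ℕ, m = fun l => change b (K l) (N l) (f l) (S l) := ⟨_, rfl⟩
    have hcount : (traceCount m t x : ℝ) = ((((range (x + 1)).filter Nat.Prime).filter (fun p => HasTrace p m t)).card : ℝ) := by
      unfold traceCount
      rw [filter_filter]
    have hexp : expected t x = ∑ p ∈ (range (x + 1)).filter Nat.Prime, Pool.Agent.TH894.NE.Pr 2 p (fun n => HasTrace p n t) := by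
      unfold expected Pool.Agent.TH894.NE.Pr Pool.Agent.TH894.NE.box
      rfl
    refine ⟨x, hyx, fun l => (Real.log_le_iff_le_exp hx0).2 (hxr l), t, ?_, ?_⟩
    · show t ∈ (if x < 2 then ∅ else Icc (-((x : ℤ) ^ 2)) ((x : ℤ) ^ 2))
      rw [if_neg (by omega)]
      by_contra hcon
      -- no prime up to `x` has such a trace
      have hno : ∀ p ∈ (range (x + 1)).filter Nat.Prime, ∀ n, ¬ HasTrace p n t := by
        intro p hp n hn
        rw [mem_filter, mem_range] at hp
        apply hcon
        unfold HasTrace at hn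
        have h2 : points p n ≤ p * p := by
          unfold points
          refine (card_filter_le _ _).trans ?_
          rw [card_product, card_range]
        have hpx : p ≤ x := by omega
        have h3 : p * p ≤ x ^ 2 := by rw [sq]; exact Nat.mul_le_mul hpx hpx
        have h4 : p ≤ x ^ 2 := hpx.trans (Nat.le_self_pow (by norm_num) x)
        have h5 : (points p n : ℤ) ≤ (x : ℤ) ^ 2 := by exact_mod_cast h2.trans h3
        have h6 : (p : ℤ) ≤ (x : ℤ) ^ 2 := by exact_mod_cast h4
        have h7 : (0 : ℤ) ≤ points p n := Nat.cast_nonneg _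
        have h8 : (0 : ℤ) ≤ (p : ℤ) := Nat.cast_nonneg _
        rw [mem_Icc, ← hn.2]
        constructor <;> linarith
      have h9 : traceCount m t x = 0 := by
        unfold traceCount
        rw [card_eq_zero, filter_eq_empty_iff]
        intro p hp hp2
        exact hno p (by rw [mem_filter]; exact ⟨hp, hp2.1⟩) m hp2.2
      have h10 : expected t x = 0 := by
        unfold expected
        apply sum_eq_zero
        intro p hp
        have : (Fintype.piFinset (fun _ : Fin 2 => range p)).filter (fun n => HasTrace p n t) = ∅ := by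
          rw [filter_eq_empty_iff]
          intro n _
          exact hno p hp n
        rw [this, card_empty, Nat.cast_zero, zero_div]
      rw [← hm, h9, h10] at hlt
      simp at hlt
      have : 0 ≤ (x : ℝ) ^ δ := by positivity
      linarith
    · rw [← hm, hcount, hexp, hm] at hlt
      exact hlt

end Pool.Agent.Results.MP_d74fca_nt.FixedTraceFewDigitCurves
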